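import Pool.Agent.R334.EM7

/-!
# Full maximal escape of mass fails

We disprove the conjecture of the problem: over the field with two elements, with `P = t`, the
quadratic irrational `θ` with `θ ^ 2 = (1 + t ^ 2) θ + t` satisfies `e k n ≤ 9 / 10` for all
`k ≥ 1` and all `n ≥ 2`. All definitions are in `Pool/Agent/R334/EMDefs.lean`.

Idea of the proof. Write `x'` for the conjugate of an element `x` of the ring generated by `t`
and `θ`. Let `R` be a power of two with `R ≤ k ≤ 2 R`, let `x` be an element of the order of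
conductor `t ^ k`, and put `A = (1 + t θ) ^ R`. Since the norm of `θ` is `t`, the norm of
`x A' - x'` is divisible by `t ^ (R + k)`; comparing degrees at the two places at infinity one
finds that for a range of positions of length proportional to `R` the lattice attached to
`t ^ k θ` has no short vector. The unit `1 + t + t ^ 2 + (t ^ 2 + t ^ 3) θ` shows that these
positions recur with period `5 R`, so a fixed proportion of the total degree of a period is
covered by quotients of degree at most two.
-/

namespace Pool.Agent.Results.MP_81ecdf_nt.FullMaximalEscapeFails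

open Polynomial Filter Topology Pool.Agent.R334.EM

theorem result :
    (∃ θ : Kinf (ZMod 2),
      θ ^ 2 = (1 + tt (ZMod 2) ^ 2) * θ + tt (ZMod 2) ∧
      IsQuadraticIrrational θ ∧
      (∀ k : ℕ, ∃ l N : ℕ, IsPeriodFrom (pquot (tt (ZMod 2) ^ k * θ)) l N) ∧
      (∀ k n : ℕ, 1 ≤ k → 2 ≤ n → escape 2 (X : (ZMod 2)[X]) θ k n ≤ 9 / 10) ∧
      (∀ n : ℕ, 2 ≤ n →
        limsup (fun k : ℕ => escape 2 (X : (ZMod 2)[X]) θ k n) atTop ≤ 1 - 1 / 10)) ∧
    ¬ ∀ (p : ℕ) [Fact p.Prime] (F : Type) [Field F] [Finite F] [Algebra (ZMod p) F]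
        (P : (ZMod p)[X]) (θ : Kinf F),
        Irreducible P → IsQuadraticIrrational θ → FullMaximalEscape p P θ := by
  have hq : IsQuadraticIrrational theta := by
    refine ⟨irr_theta, 1, 1 + X ^ 2, X, one_ne_zero, ?_⟩
    rw [map_one, emb_ff, emb_X, theta_eq]
    linear_combination ((1 + tt (ZMod 2) ^ 2) * theta + tt (ZMod 2)) * two_eq_zero
  have hX : emb (ZMod 2) ((X : (ZMod 2)[X]).map (algebraMap (ZMod 2) (ZMod 2))) =
      tt (ZMod 2) := by
    rw [Polynomial.map_X, emb_X]
  have hb : ∀ k n : ℕ, 1 ≤ k → 2 ≤ n → escape 2 (X : (ZMod 2)[X]) theta k n ≤ 9 / 10 := by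
    intro k n hk hn
    unfold escape
    rw [hX]
    exact excess_Phi k hk n hn
  have hnn : ∀ k n : ℕ, 0 ≤ escape 2 (X : (ZMod 2)[X]) theta k n := by
    intro k n
    unfold escape
    exact excess_nonneg _ _
  have hlim : ∀ n : ℕ, 2 ≤ n →
      limsup (fun k : ℕ => escape 2 (X : (ZMod 2)[X]) theta k n) atTop ≤ 9 / 10 := by
    intro n hn
    apply limsup_le_of_le
    · exact isCoboundedUnder_le_of_le atTop (x := 0) (fun k => hnn k n)
    · filter_upwards [eventually_ge_atTop 1] with k hk
      exact hb k n hk hn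
  refine ⟨⟨theta, theta_eq, hq, fun k => exists_period k, hb, fun n hn => ?_⟩, ?_⟩
  · have := hlim n hn
    linarith
  · intro hall
    have h := hall 2 (ZMod 2) X theta irreducible_X hq
    unfold FullMaximalEscape at h
    have h1 : (1 : ℝ) ≤ 9 / 10 := by
      apply le_of_tendsto h
      filter_upwards [eventually_ge_atTop 2] with n hn
      exact hlim n hn
    norm_num at h1

end Pool.Agent.Results.MP_81ecdf_nt.FullMaximalEscapeFails
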